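import Pool.Agent.R739.RM.Defs

set_option autoImplicit false

namespace Pool.Agent.R560

open Finset Filter Topology Pool.Agent.R739.RD Pool.Agent.R739.RM

namespace SPI

/-- a positive function on a finite set is bounded below by a positive constant -/
lemma exists_delta {ι : Type*} (F : Finset ι) (f : ι → ℝ) (h : ∀ x ∈ F, 0 < f x) :
    ∃ δ : ℝ, 0 < δ ∧ ∀ x ∈ F, δ ≤ f x := by
  classical
  induction F using Finset.induction_on with
  | empty => exact ⟨1, one_pos, by simp⟩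
  | insert a F ha ih =>
    obtain ⟨δ, hδ, hδ'⟩ := ih (fun x hx => h x (Finset.mem_insert_of_mem hx))
    refine ⟨min δ (f a), lt_min hδ (h a (Finset.mem_insert_self _ _)), ?_⟩
    intro x hx
    rcases Finset.mem_insert.1 hx with rfl | hx
    · exact min_le_right _ _
    · exact (min_le_left _ _).trans (hδ' x hx)

lemma delta (α : ℝ) (hα : ∀ s : ℕ, 1 ≤ s → Irrational (α ^ s)) (b S U M : ℕ) :
    ∃ δ : ℝ, 0 < δ ∧ ∀ s : ℕ, 1 ≤ s → s ≤ S → ∀ u : ℕ, u ≤ U → ∀ P P' : ℤ, |P| ≤ M →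
      |P'| ≤ M → P ≠ 0 → δ ≤ |α ^ s * P - (b : ℝ) ^ u * P'| := by
  have h := exists_delta
    (((Finset.Icc 1 S) ×ˢ (Finset.range (U + 1)) ×ˢ (Finset.Icc (-(M : ℤ)) M) ×ˢ
      (Finset.Icc (-(M : ℤ)) M)).filter (fun x : ℕ × ℕ × ℤ × ℤ => x.2.2.1 ≠ 0))
    (fun x => |α ^ x.1 * x.2.2.1 - (b : ℝ) ^ x.2.1 * x.2.2.2|) ?_
  · obtain ⟨δ, hδ, h'⟩ := h
    refine ⟨δ, hδ, ?_⟩
    intro s hs hs' u hu P P' hP hP' hne
    have := h' (s, u, P, P') (by
      simp only [Finset.mem_filter, Finset.mem_product, Finset.mem_Icc, Finset.mem_range]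
      refine ⟨⟨⟨hs, hs'⟩, by omega, abs_le.1 hP, abs_le.1 hP'⟩, hne⟩)
    exact this
  · rintro ⟨s, u, P, P'⟩ hx
    simp only [Finset.mem_filter, Finset.mem_product, Finset.mem_Icc, Finset.mem_range] at hx
    obtain ⟨⟨⟨hs, hs'⟩, -, -, -⟩, hne⟩ := hx
    apply abs_pos.2
    intro h0
    apply hα s hs
    refine ⟨((b : ℚ) ^ u * P') / P, ?_⟩
    have hP : (P : ℝ) ≠ 0 := by exact_mod_cast hne
    push_cast
    field_simp
    simp only at h0
    linarith

lemma core (α : ℝ) (hα1 : 1 < α) (b : ℕ) (hb : 2 ≤ b) (D : ℕ) (hD : 1 ≤ D) (S U : ℕ)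
    (hU : b * α ^ S < (b : ℝ) ^ U) (δ : ℝ)
    (hδ : ∀ s : ℕ, 1 ≤ s → s ≤ S → ∀ u : ℕ, u ≤ U → ∀ P P' : ℤ, |P| ≤ (b ^ (D + 1) + 1 : ℕ) →
      |P'| ≤ (b ^ (D + 1) + 1 : ℕ) → P ≠ 0 → δ ≤ |α ^ s * P - (b : ℝ) ^ u * P'|) (l : ℕ)
    (hl : (α ^ S + (b : ℝ) ^ U) * ((b : ℝ) ^ l)⁻¹ < δ) (lam : ℝ) (hlam : lam ≠ 0) (n s : ℕ)
    (hs : 1 ≤ s) (hsS : s ≤ S) (h1 : Bad α b lam D l n) (h2 : Bad α b lam D l (n + s)) :
    False := by
  have hα0 : 0 < α := by linarith
  have hb1 : 1 < b := by omega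
  have hbR : (1 : ℝ) < b := by exact_mod_cast hb1
  have hb0 : (0 : ℝ) < b := by linarith
  have hb2 : (2 : ℝ) ≤ b := by exact_mod_cast hb
  -- general facts
  have gen : ∀ T : ℝ, T ≠ 0 → ∀ x : ℝ, x = T / (b : ℝ) ^ (top b T - D) →
      (b : ℝ) ^ D ≤ |x| ∧ |x| < (b : ℝ) ^ (D + 1) ∧ T = (b : ℝ) ^ (top b T - D) * x ∧
        round x ≠ 0 ∧ |round x| ≤ (b ^ (D + 1) + 1 : ℕ) := by
    intro T hT x hx
    have hT0 : 0 < |T| := abs_pos.2 hT
    have e1 : (b : ℝ) ^ (top b T) ≤ |T| := Int.zpow_log_le_self hb1 hT0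
    have e2 : |T| < (b : ℝ) ^ (top b T + 1) := Int.lt_zpow_succ_log_self hb1 _
    have hp : 0 < (b : ℝ) ^ (top b T - D) := zpow_pos hb0 _
    have e3 : |x| = |T| / (b : ℝ) ^ (top b T - D) := by
      rw [hx, abs_div, abs_of_pos hp]
    have e4 : (b : ℝ) ^ D ≤ |x| := by
      rw [e3, le_div_iff₀ hp, ← zpow_natCast, ← zpow_add₀ hb0.ne']
      have : (D : ℤ) + (top b T - D) = top b T := by ring
      rw [this]
      exact e1
    have e5 : |x| < (b : ℝ) ^ (D + 1) := by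
      rw [e3, div_lt_iff₀ hp, ← zpow_natCast, ← zpow_add₀ hb0.ne']
      have : ((D + 1 : ℕ) : ℤ) + (top b T - D) = top b T + 1 := by push_cast; ring
      rw [this]
      exact e2
    refine ⟨e4, e5, ?_, ?_, ?_⟩
    · rw [hx]
      field_simp
    · intro h0
      have h3 := abs_sub_round x
      rw [h0] at h3
      simp only [Int.cast_zero, sub_zero] at h3
      have h4 : (b : ℝ) ≤ (b : ℝ) ^ D := by
        calc (b : ℝ) = (b : ℝ) ^ 1 := (pow_one _).symm
          _ ≤ (b : ℝ) ^ D := pow_le_pow_right₀ hbR.le hD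
      linarith
    · have h3 := abs_sub_round x
      have h4 : |((round x : ℤ) : ℝ)| ≤ |x| + 1 / 2 := by
        have h5 : ((round x : ℤ) : ℝ) = x - (x - round x) := by ring
        rw [h5]
        exact (abs_sub _ _).trans (by linarith)
      have h6 : (|round x| : ℝ) ≤ ((b ^ (D + 1) + 1 : ℕ) : ℝ) := by
        push_cast
        linarith
      exact_mod_cast h6
  set T := lam * α ^ n with hT
  set T' := lam * α ^ (n + s) with hT'
  have hT0 : T ≠ 0 := mul_ne_zero hlam (pow_ne_zero _ hα0.ne')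
  have hT0' : T' ≠ 0 := mul_ne_zero hlam (pow_ne_zero _ hα0.ne')
  have hTT : T' = α ^ s * T := by
    rw [hT, hT', pow_add]
    ring
  unfold Bad at h1 h2
  rw [← hT] at h1
  rw [← hT'] at h2
  set x := T / (b : ℝ) ^ (top b T - D) with hx
  set x' := T' / (b : ℝ) ^ (top b T' - D) with hx'
  obtain ⟨-, -, c3, c4, c5⟩ := gen T hT0 x hx
  obtain ⟨-, -, c3', c4', c5'⟩ := gen T' hT0' x' hx'
  have hTp : 0 < |T| := abs_pos.2 hT0
  have hTp' : 0 < |T'| := abs_pos.2 hT0'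
  have f1 : (b : ℝ) ^ (top b T) ≤ |T| := Int.zpow_log_le_self hb1 hTp
  have f2 : |T| < (b : ℝ) ^ (top b T + 1) := Int.lt_zpow_succ_log_self hb1 _
  have f1' : (b : ℝ) ^ (top b T') ≤ |T'| := Int.zpow_log_le_self hb1 hTp'
  have f2' : |T'| < (b : ℝ) ^ (top b T' + 1) := Int.lt_zpow_succ_log_self hb1 _
  have hαs : 1 ≤ α ^ s := one_le_pow₀ hα1.le
  have hαS : α ^ s ≤ α ^ S := pow_le_pow_right₀ hα1.le hsS
  have habs : |T'| = α ^ s * |T| := by
    rw [hTT, abs_mul, abs_of_pos (pow_pos hα0 s)]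
  -- the difference of the tops
  have g1 : top b T ≤ top b T' := by
    have h3 : (b : ℝ) ^ (top b T) < (b : ℝ) ^ (top b T' + 1) := by
      calc (b : ℝ) ^ (top b T) ≤ |T| := f1
        _ ≤ α ^ s * |T| := by nlinarith
        _ = |T'| := habs.symm
        _ < _ := f2'
    have := (zpow_lt_zpow_iff_right₀ hbR).1 h3
    omega
  have g2 : top b T' ≤ top b T + U := by
    have h3 : (b : ℝ) ^ (top b T') < (b : ℝ) ^ (top b T + U) := by
      calc (b : ℝ) ^ (top b T') ≤ |T'| := f1'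
        _ = α ^ s * |T| := habs
        _ ≤ α ^ S * |T| := by
          exact mul_le_mul_of_nonneg_right hαS hTp.le
        _ ≤ α ^ S * (b : ℝ) ^ (top b T + 1) := by
          exact mul_le_mul_of_nonneg_left f2.le (pow_pos hα0 _).le
        _ = (b * α ^ S) * (b : ℝ) ^ (top b T) := by
          rw [zpow_add_one₀ hb0.ne']
          ring
        _ < (b : ℝ) ^ U * (b : ℝ) ^ (top b T) := by
          exact mul_lt_mul_of_pos_right hU (zpow_pos hb0 _)
        _ = (b : ℝ) ^ (top b T + U) := by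
          rw [zpow_add₀ hb0.ne', zpow_natCast]
          ring
    have := (zpow_lt_zpow_iff_right₀ hbR).1 h3
    omega
  obtain ⟨u, hu⟩ : ∃ u : ℕ, top b T' = top b T + u := ⟨(top b T' - top b T).toNat, by omega⟩
  have huU : u ≤ U := by omega
  -- the relation
  have rel : α ^ s * x = (b : ℝ) ^ u * x' := by
    have hp : (b : ℝ) ^ (top b T - D) ≠ 0 := (zpow_pos hb0 _).ne'
    have h3 : (b : ℝ) ^ (top b T' - D) = (b : ℝ) ^ (top b T - D) * (b : ℝ) ^ u := by
      rw [← zpow_natCast, ← zpow_add₀ hb0.ne']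
      congr 1
      omega
    have h4 : (b : ℝ) ^ (top b T - D) * (α ^ s * x) =
        (b : ℝ) ^ (top b T - D) * ((b : ℝ) ^ u * x') := by
      calc (b : ℝ) ^ (top b T - D) * (α ^ s * x)
          = α ^ s * ((b : ℝ) ^ (top b T - D) * x) := by ring
        _ = α ^ s * T := by rw [← c3]
        _ = T' := hTT.symm
        _ = (b : ℝ) ^ (top b T' - D) * x' := c3'
        _ = _ := by rw [h3]; ring
    exact mul_left_cancel₀ hp h4
  have key := hδ s hs hsS u huU (round x) (round x') c5 c5' c4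
  have hle : |α ^ s * (round x : ℝ) - (b : ℝ) ^ u * (round x' : ℝ)| ≤
      (α ^ S + (b : ℝ) ^ U) * ((b : ℝ) ^ l)⁻¹ := by
    have h3 : α ^ s * (round x : ℝ) - (b : ℝ) ^ u * (round x' : ℝ) =
        (b : ℝ) ^ u * (x' - round x') - α ^ s * (x - round x) := by
      linear_combination rel
    rw [h3]
    have h4 : |x - round x| ≤ ((b : ℝ) ^ l)⁻¹ := h1
    have h5 : |x' - round x'| ≤ ((b : ℝ) ^ l)⁻¹ := h2
    have hbu : (b : ℝ) ^ u ≤ (b : ℝ) ^ U := pow_le_pow_right₀ hbR.le huU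
    have hbl : 0 < ((b : ℝ) ^ l)⁻¹ := inv_pos.2 (pow_pos hb0 _)
    calc |(b : ℝ) ^ u * (x' - round x') - α ^ s * (x - round x)|
        ≤ |(b : ℝ) ^ u * (x' - round x')| + |α ^ s * (x - round x)| := abs_sub _ _
      _ = (b : ℝ) ^ u * |x' - round x'| + α ^ s * |x - round x| := by
        rw [abs_mul, abs_mul, abs_of_pos (pow_pos hb0 u), abs_of_pos (pow_pos hα0 s)]
      _ ≤ (b : ℝ) ^ U * ((b : ℝ) ^ l)⁻¹ + α ^ S * ((b : ℝ) ^ l)⁻¹ := by
        apply add_le_add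
        · exact mul_le_mul hbu h5 (abs_nonneg _) (pow_pos hb0 _).le
        · exact mul_le_mul hαS h4 (abs_nonneg _) (pow_pos hα0 _).le
      _ = _ := by ring
  linarith

end SPI

open SPI in
theorem RM_SPI : STM_SPI := by
  classical
  intro α hα1 hα b hb ε hε D hD
  have hα0 : 0 < α := by linarith
  have hb1 : 1 < b := by omega
  have hbR : (1 : ℝ) < b := by exact_mod_cast hb1
  have hb0 : (0 : ℝ) < b := by linarith
  obtain ⟨S, hS⟩ := exists_nat_gt (1 / ε)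
  have hS0 : 0 < (S : ℝ) := lt_trans (by positivity) hS
  have hS1 : 0 < S := by exact_mod_cast hS0
  obtain ⟨U, hU⟩ := pow_unbounded_of_one_lt (b * α ^ S) hbR
  obtain ⟨δ, hδ, hδ'⟩ := delta α hα b S U (b ^ (D + 1) + 1)
  obtain ⟨l, hl⟩ := pow_unbounded_of_one_lt ((α ^ S + (b : ℝ) ^ U) / δ) hbR
  have hl' : (α ^ S + (b : ℝ) ^ U) * ((b : ℝ) ^ l)⁻¹ < δ := by
    rw [div_lt_iff₀ hδ] at hl
    have hbl : 0 < (b : ℝ) ^ l := pow_pos hb0 _
    rw [← div_eq_mul_inv, div_lt_iff₀ hbl]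
    linarith
  refine ⟨l, fun lam hlam => ⟨1, fun N => ?_⟩⟩
  have hinj : Set.InjOn (fun n => n / S)
      (((Ioc 0 N).filter (fun n => Bad α b lam D l n) : Finset ℕ) : Set ℕ) := by
    have aux : ∀ n n' : ℕ, Bad α b lam D l n → Bad α b lam D l n' → n < n' → n / S = n' / S →
        False := by
      intro n n' hn hn' hlt he
      obtain ⟨s, rfl⟩ := Nat.exists_eq_add_of_lt hlt
      have hlt2 : s + 1 ≤ S := by
        have e1 := Nat.div_add_mod n S
        have e2 := Nat.div_add_mod (n + s + 1) S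
        have e3 := Nat.mod_lt n hS1
        have e4 := Nat.mod_lt (n + s + 1) hS1
        rw [← he] at e2
        omega
      exact core α hα1 b hb D hD S U hU δ hδ' l hl' lam hlam n (s + 1) (by omega) hlt2 hn hn'
    intro n hn n' hn' he
    simp only [Finset.coe_filter, Set.mem_setOf_eq] at hn hn'
    rcases lt_trichotomy n n' with h | h | h
    · exact (aux n n' hn.2 hn'.2 h he).elim
    · exact h
    · exact (aux n' n hn'.2 hn.2 h he.symm).elim
  have hcard : ((Ioc 0 N).filter (fun n => Bad α b lam D l n)).card ≤ N / S + 1 := by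
    have h1 := Finset.card_le_card_of_injOn (s := (Ioc 0 N).filter (fun n => Bad α b lam D l n))
      (t := Finset.range (N / S + 1)) (fun n => n / S) ?_ hinj
    · simpa using h1
    · intro n hn
      simp only [Finset.coe_filter, Set.mem_setOf_eq, Finset.mem_Ioc] at hn
      simp only [Finset.coe_range, Set.mem_Iio]
      exact Nat.lt_succ_of_le (Nat.div_le_div_right hn.1.2)
  have h3 : ((((Ioc 0 N).filter (fun n => Bad α b lam D l n)).card : ℕ) : ℝ) ≤
      ((N / S : ℕ) : ℝ) + 1 := by exact_mod_cast hcard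
  have h4 : ((N / S : ℕ) : ℝ) ≤ (N : ℝ) / S := Nat.cast_div_le
  have h5 : (N : ℝ) / S ≤ ε * N := by
    rw [div_le_iff₀ hS0]
    have h6 : 1 ≤ ε * S := by
      rw [div_lt_iff₀ hε] at hS
      linarith
    have h7 : (0 : ℝ) ≤ N := Nat.cast_nonneg _
    nlinarith
  linarith

end Pool.Agent.R560
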